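import Pool.Agent.H14R3.KK.Defs
import Pool.Agent.H14R3.KK.S.EUP
import Pool.Agent.H14R3.KK.S.LOWB
import Pool.Agent.H14R3.KK.S.POSB

/-! Task RHOA of project KK (MP_d47e08_pr). -/

set_option autoImplicit false
open MeasureTheory ProbabilityTheory Filter Topology

namespace KK14

namespace RHOAx

theorem tendsto_choose (q l : ℕ) :
    Tendsto (fun n : ℕ => ((n - l).choose q : ℝ) / (n : ℝ) ^ q) atTop
      (𝓝 (1 / (q.factorial : ℝ))) := by
  have h1 : Tendsto (fun n : ℕ => ∏ i ∈ Finset.range q, (((n - l - i : ℕ) : ℝ) / (n : ℝ))) atTop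
      (𝓝 (∏ i ∈ Finset.range q, (1 : ℝ))) := by
    refine tendsto_finsetProd _ fun i _ => ?_
    have h2 : Tendsto (fun n : ℕ => 1 - ((l + i : ℕ) : ℝ) / (n : ℝ)) atTop (𝓝 (1 - 0)) :=
      tendsto_const_nhds.sub (tendsto_const_div_atTop_nhds_zero_nat _)
    rw [sub_zero] at h2
    refine h2.congr' ?_
    filter_upwards [eventually_ge_atTop (l + i), eventually_ge_atTop 1] with n hn hn1
    have hn0 : (n : ℝ) ≠ 0 := by
      have : (1 : ℝ) ≤ n := by exact_mod_cast hn1
      linarith
    rw [Nat.sub_sub, Nat.cast_sub hn]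
    field_simp
  rw [Finset.prod_const_one] at h1
  have h3 := h1.const_mul (1 / (q.factorial : ℝ))
  rw [mul_one] at h3
  refine h3.congr fun n => ?_
  rw [Finset.prod_div_distrib, Finset.prod_const, Finset.card_range]
  have h4 : ((n - l).choose q : ℝ) = (∏ i ∈ Finset.range q, ((n - l - i : ℕ) : ℝ)) / q.factorial := by
    rw [Nat.choose_eq_descFactorial_div_factorial, Nat.cast_div
      (Nat.factorial_dvd_descFactorial _ _) (by positivity), Nat.descFactorial_eq_prod_range]
    push_cast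
    rfl
  rw [h4]
  ring

theorem lam_eq (q n : ℕ) :
    (n : ℝ) ^ (-((2 * q : ℕ) : ℝ) / 4) = 1 / √((n : ℝ) ^ q) := by
  have hn0 : (0 : ℝ) ≤ n := Nat.cast_nonneg n
  rw [Real.sqrt_eq_rpow, ← Real.rpow_natCast, ← Real.rpow_mul hn0, one_div, ← Real.rpow_neg hn0]
  congr 1
  push_cast
  ring

theorem const_gt (q l : ℕ) (hq : 1 ≤ q) (hl : q ≤ l) (mu : ℝ)
    (hmu : 200 * √((q.factorial : ℝ) * l / (q * l.choose q)) < mu) :
    1 < mu * (l.choose q : ℝ) / (200 * √((l.choose q : ℝ) * l / (q * q.factorial))) *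
      (1 / (q.factorial : ℝ)) := by
  have hA : (0 : ℝ) < l.choose q := by exact_mod_cast Nat.choose_pos hl
  have hF : (0 : ℝ) < q.factorial := by exact_mod_cast Nat.factorial_pos q
  have hq0 : (0 : ℝ) < q := by exact_mod_cast hq
  have hl0 : (0 : ℝ) < l := by exact_mod_cast (lt_of_lt_of_le (by omega) hl)
  have hs : √((l.choose q : ℝ) * l / (q * q.factorial)) * (q.factorial : ℝ) =
      √((q.factorial : ℝ) * l / (q * l.choose q)) * (l.choose q : ℝ) := by
    have e1 : (q.factorial : ℝ) = √((q.factorial : ℝ) ^ 2) := (Real.sqrt_sq hF.le).symm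
    have e2 : (l.choose q : ℝ) = √((l.choose q : ℝ) ^ 2) := (Real.sqrt_sq hA.le).symm
    calc √((l.choose q : ℝ) * l / (q * q.factorial)) * (q.factorial : ℝ)
        = √((l.choose q : ℝ) * l / (q * q.factorial)) * √((q.factorial : ℝ) ^ 2) := by
          rw [← e1]
      _ = √((l.choose q : ℝ) * l / (q * q.factorial) * (q.factorial : ℝ) ^ 2) := by
          rw [← Real.sqrt_mul (by positivity)]
      _ = √((q.factorial : ℝ) * l / (q * l.choose q) * (l.choose q : ℝ) ^ 2) := by
          congr 1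
          field_simp
      _ = √((q.factorial : ℝ) * l / (q * l.choose q)) * √((l.choose q : ℝ) ^ 2) := by
          rw [← Real.sqrt_mul (by positivity)]
      _ = _ := by rw [← e2]
  have hs0 : 0 < √((l.choose q : ℝ) * l / (q * q.factorial)) := Real.sqrt_pos.2 (by positivity)
  rw [mul_one_div, div_div, lt_div_iff₀ (by positivity), one_mul]
  calc 200 * √((l.choose q : ℝ) * l / (q * q.factorial)) * (q.factorial : ℝ)
      = (200 * √((q.factorial : ℝ) * l / (q * l.choose q))) * (l.choose q : ℝ) := by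
        rw [mul_assoc, hs, mul_assoc]
    _ < mu * (l.choose q : ℝ) := mul_lt_mul_of_pos_right hmu hA

end RHOAx

open RHOAx in
theorem RHOA (q l : ℕ) (hq : 1 ≤ q) (hl : q ≤ l) (mu : ℝ)
    (hmu : 200 * √((q.factorial : ℝ) * l / (q * l.choose q)) < mu) : 1 < rho (2 * q) l mu := by
  have hA : (0 : ℝ) < l.choose q := by exact_mod_cast Nat.choose_pos hl
  have hF : (0 : ℝ) < q.factorial := by exact_mod_cast Nat.factorial_pos q
  have hq0 : (0 : ℝ) < q := by exact_mod_cast hq
  have hl0 : (0 : ℝ) < l := by exact_mod_cast (lt_of_lt_of_le (by omega) hl)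
  have hmu0 : 0 < mu := lt_of_le_of_lt (by positivity) hmu
  have hs0 : 0 < √((l.choose q : ℝ) * l / (q * q.factorial)) := Real.sqrt_pos.2 (by positivity)
  obtain ⟨c, hc1, hc2⟩ := exists_between (const_gt q l hq hl mu hmu)
  have hlim := (tendsto_choose q l).const_mul
    (mu * (l.choose q : ℝ) / (200 * √((l.choose q : ℝ) * l / (q * q.factorial))))
  have hev : ∀ᶠ n : ℕ in atTop, ((c : ℝ) : EReal) ≤
      ((Elm n (2 * q) l (mu * (n : ℝ) ^ (-((2 * q : ℕ) : ℝ) / 4)) / Elm n (2 * q) l 0 : ℝ) :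
        EReal) := by
    filter_upwards [hlim.eventually_const_lt hc2, EUP q l hq hl, eventually_ge_atTop (l + q),
      eventually_ge_atTop 1] with n h1 h2 h3 h4
    rw [EReal.coe_le_coe_iff]
    refine h1.le.trans ?_
    have hn : l ≤ n := by omega
    have hlow := LOWB n q l hq hn (mu * (n : ℝ) ^ (-((2 * q : ℕ) : ℝ) / 4))
    have hB : (0 : ℝ) < ((n - l).choose q : ℕ) := by
      exact_mod_cast Nat.choose_pos (by omega)
    have hpos : 0 < Elm n (2 * q) l 0 :=
      lt_of_lt_of_le (by positivity) (POSB n q l hq hn)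
    have hn0 : (0 : ℝ) < n := by exact_mod_cast h4
    have hsn : 0 < √((n : ℝ) ^ q) := Real.sqrt_pos.2 (by positivity)
    have hsq : √((n : ℝ) ^ q) * √((n : ℝ) ^ q) = (n : ℝ) ^ q := Real.mul_self_sqrt (by positivity)
    rw [lam_eq q n] at hlow ⊢
    calc mu * (l.choose q : ℝ) / (200 * √((l.choose q : ℝ) * l / (q * q.factorial))) *
          (((n - l).choose q : ℝ) / (n : ℝ) ^ q)
        = (mu * (1 / √((n : ℝ) ^ q)) * ((l.choose q : ℝ) * ((n - l).choose q : ℝ))) /
          (200 * √((l.choose q : ℝ) * l / (q * q.factorial)) * √((n : ℝ) ^ q)) := by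
          have hdiv : ((n - l).choose q : ℝ) / (n : ℝ) ^ q =
              ((n - l).choose q : ℝ) / (√((n : ℝ) ^ q) * √((n : ℝ) ^ q)) := by rw [hsq]
          rw [hdiv]
          generalize √((n : ℝ) ^ q) = s at *
          field_simp
      _ ≤ _ := div_le_div₀ (le_trans (by positivity) hlow) hlow hpos h2
  have hrho : ((c : ℝ) : EReal) ≤ rho (2 * q) l mu := le_liminf_of_le (by isBoundedDefault) hev
  refine lt_of_lt_of_le ?_ hrho
  exact_mod_cast hc1

end KK14
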